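import Pool.Agent.EVC.Fin3

/-!
# MP_2a8755_al: varieties containing `C2` whose finite groups are abelian
-/

set_option autoImplicit false

namespace Pool.Agent.Results.MP_2a8755_al.AbelianGroups

open EVS EVC

/-- For `n > 0`: all varieties `V` which contain `C2` and whose finite groups are abelian of exponent dividing `n` are
endomorphic iff they contain neither `P` nor its dual, if and only if `n` is not divisible by `8` or by `p ^ 2` for an odd
prime `p`. -/
theorem result {n : ℕ} (hn : 0 < n) :
    (∀ V : Set (Wd × Wd), Mem V C2 →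
      (∀ (G : Type) [Group G] [Finite G], Mem V G → (∀ a b : G, a * b = b * a) ∧ ∀ a : G, a ^ n = 1) →
      (Endomorphic V ↔ ¬ Mem V P ∧ ¬ Mem V Pᵐᵒᵖ)) ↔
      (¬ 8 ∣ n ∧ ∀ p : ℕ, p.Prime → p ≠ 2 → ¬ p ^ 2 ∣ n) :=
  dichotomy hn

end Pool.Agent.Results.MP_2a8755_al.AbelianGroups
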