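import Pool.Agent.EVA.Fin

/-!
# MP_2a8755_al: the endomorphic varieties among those with aperiodic finite members
-/

set_option autoImplicit false

namespace Pool.Agent.Results.MP_2a8755_al.AperiodicVarieties

open EVS

/-- The condition `A0, B2 ∉ V`; `C2, R21 ∉ V` if the dual of `P` is in `V`; `C2` and the dual of `R21` not in `V`
if `P` is in `V`: it is necessary for every endomorphic variety, and sufficient if all finite members of `V` are
aperiodic. -/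
theorem result (V : Set (Wd × Wd)) :
    (Endomorphic V →
      ¬ Mem V A0 ∧ ¬ Mem V B2 ∧ (Mem V Pᵐᵒᵖ → ¬ Mem V C2 ∧ ¬ Mem V R21) ∧
        (Mem V P → ¬ Mem V C2 ∧ ¬ Mem V R21ᵐᵒᵖ)) ∧
    ((∀ (S : Type) [Semigroup S] [Finite S], Mem V S → Aper S) →
      (¬ Mem V A0 ∧ ¬ Mem V B2 ∧ (Mem V Pᵐᵒᵖ → ¬ Mem V C2 ∧ ¬ Mem V R21) ∧
        (Mem V P → ¬ Mem V C2 ∧ ¬ Mem V R21ᵐᵒᵖ)) →
      Endomorphic V) :=
  ⟨necessary2 V, fun hap h => sufficient V hap h.1 h.2.1 h.2.2.1 h.2.2.2⟩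

end Pool.Agent.Results.MP_2a8755_al.AperiodicVarieties
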