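import Pool.Agent.EVC.Fin4
import Pool.Agent.EVR.Fin

/-!
# MP_2a8755_al: criterion for endomorphic varieties
-/

set_option autoImplicit false

namespace Pool.Agent.Results.MP_2a8755_al.Classification

open EVS EVC

/-- If a variety is endomorphic, then it contains neither `A0` nor `B2`, `P` (its dual) is in it only if `C2` and the
dual of `R21` (`C2` and `R21`) are not, and all its configurations are good. Conversely, these conditions imply that the
variety is endomorphic, if it contains `C2`, or if its finite members are aperiodic, or if the idempotents of its finite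
members are central, or if in its finite members all products of two elements are elements of subgroups and its finite
groups are nilpotent of bounded class. -/
theorem result (V : Set (Wd × Wd)) :
    (Endomorphic V →
      (¬ Mem V A0 ∧ ¬ Mem V B2 ∧ (Mem V Pᵐᵒᵖ → ¬ Mem V C2 ∧ ¬ Mem V R21) ∧
        (Mem V P → ¬ Mem V C2 ∧ ¬ Mem V R21ᵐᵒᵖ)) ∧ AllGood V) ∧
    ((Mem V C2 ∨ (∀ (S : Type) [Semigroup S] [Finite S], Mem V S → Aper S) ∨
        (∀ (S : Type) [Semigroup S] [Finite S], Mem V S → CentralIdem S) ∨
        ((∀ (S : Type) [Semigroup S] [Finite S], Mem V S → ∀ s t : S, IsGp (s * t)) ∧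
          ∃ k : ℕ, ∀ (G : Type) [Group G] [Finite G], Mem V G → (⊤ : Subgroup G).lowerCentralSeries k = ⊥)) →
      (¬ Mem V A0 ∧ ¬ Mem V B2 ∧ (Mem V Pᵐᵒᵖ → ¬ Mem V C2 ∧ ¬ Mem V R21) ∧
        (Mem V P → ¬ Mem V C2 ∧ ¬ Mem V R21ᵐᵒᵖ)) ∧ AllGood V →
      Endomorphic V) := by
  refine ⟨fun hE => ⟨necessary2 V hE, allGood_of_endo hE⟩, fun h => ?_⟩
  rcases h with h | h | h | ⟨h, k, hk⟩
  · exact (main V (Or.inl h)).2
  · exact (main V (Or.inr (Or.inl h))).2
  · exact (main V (Or.inr (Or.inr h))).2
  · exact fun _ => EVR.endo_of_PG h hk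

end Pool.Agent.Results.MP_2a8755_al.Classification
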