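import Pool.Agent.EVS.Final

/-!
# MP_2a8755_al: endomorphic varieties of semigroups containing `C2`
-/

set_option autoImplicit false

namespace Pool.Agent.Results.MP_2a8755_al.VarietiesAboveC2

open EVS

/-- Classification of the endomorphic varieties containing `C2` whose finite members are aperiodic, or satisfy
a fixed nontrivial permutation identity, or satisfy `x ^ 2 = x ^ (k + 2)` for some `k > 0`, or satisfy the
weaker common condition: if the idempotents are central, then all group elements are central or all squares
are group elements.  (`pw x n` is `x ^ (n + 1)`.) -/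
theorem result (V : Set (Wd × Wd)) (hC : Mem V C2)
    (h : (∀ (S : Type) [Semigroup S] [Finite S], Mem V S → Aper S) ∨
      (∃ (n : ℕ) (σ : Equiv.Perm (Fin n)), σ ≠ 1 ∧
        ∀ (S : Type) [Semigroup S] [Finite S], Mem V S → PermId S σ) ∨
      (∃ k : ℕ, 0 < k ∧ ∀ (S : Type) [Semigroup S] [Finite S], Mem V S →
        ∀ x : S, pw x 1 = pw x (k + 1)) ∨
      (∀ (S : Type) [Semigroup S] [Finite S], Mem V S → CentralIdem S → CentralGp S ∨ SqGp S)) :
    Endomorphic V ↔ ¬ Mem V P ∧ ¬ Mem V Pᵐᵒᵖ :=
  classification_C2 V hC h

end Pool.Agent.Results.MP_2a8755_al.VarietiesAboveC2
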